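import Pool.Agent.CLN.Geo

/-!
# MP_246b47_co: every finite family of clones of a convex figure of total area at most 1 packs into a clone of area 3
-/

set_option autoImplicit false

open MeasureTheory

namespace Pool.Agent.Results.MP_246b47_co.ClonesIntoThree

/-- `S(F) ≤ 3` for every convex figure `F`; translations suffice. -/
theorem result :
    ∀ F : Set (EuclideanSpace ℝ (Fin 2)),
      IsCompact F → Convex ℝ F → (interior F).Nonempty →
      ∀ (n : ℕ) (r : Fin n → ℝ), (∀ i, 0 < r i) →
        (∑ i, r i ^ 2) * (volume F).toReal ≤ 1 →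
        ∃ s : ℝ, 0 < s ∧ s ^ 2 * (volume F).toReal = 3 ∧
          ∃ b : Fin n → EuclideanSpace ℝ (Fin 2),
            (∀ i, (fun x => r i • x + b i) '' F ⊆ (fun x => s • x) '' F) ∧
            (∀ i j, i ≠ j →
              Disjoint (interior ((fun x => r i • x + b i) '' F))
                       (interior ((fun x => r j • x + b j) '' F))) := by
  intro F hc hF hi n r hr hA
  have hV : 0 < (volume F).toReal := by
    apply ENNReal.toReal_pos
    · exact (lt_of_lt_of_le (isOpen_interior.measure_pos volume hi) (measure_mono interior_subset)).ne'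
    · exact hc.measure_lt_top.ne
  set V := (volume F).toReal with hVdef
  have hs : 0 < Real.sqrt (3 / V) := Real.sqrt_pos.mpr (by positivity)
  have hs2 : Real.sqrt (3 / V) ^ 2 = 3 / V := Real.sq_sqrt (by positivity)
  set s := Real.sqrt (3 / V) with hsdef
  obtain ⟨b, hb1, hb2⟩ := Pool.Agent.CLN.pack_fig hc hF hi n (fun i => r i / s) (fun i => div_pos (hr i) hs) (by
    have e : ∑ i, (r i / s) ^ 2 = (∑ i, r i ^ 2) / (3 / V) := by
      rw [Finset.sum_div]
      apply Finset.sum_congr rfl
      intro i _
      rw [div_pow, hs2]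
    rw [e, div_le_iff₀ (by positivity)]
    have : 1 / 3 * (3 / V) = 1 / V := by ring
    rw [this, le_div_iff₀ hV]
    exact hA)
  have himg : ∀ i, (fun x => r i • x + s • b i) '' F = (fun y => s • y) '' ((fun x => (r i / s) • x + b i) '' F) := by
    intro i
    rw [Set.image_image]
    apply Set.image_congr
    intro x _
    rw [smul_add, smul_smul, mul_div_cancel₀ _ hs.ne']
  have hint : ∀ A : Set (EuclideanSpace ℝ (Fin 2)), interior ((fun y => s • y) '' A) = (fun y => s • y) '' interior A := by
    intro A
    exact ((Homeomorph.smulOfNeZero s hs.ne').image_interior A).symm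
  refine ⟨s, hs, ?_, fun i => s • b i, ?_, ?_⟩
  · rw [hs2]
    field_simp
  · intro i
    rw [himg]
    exact Set.image_mono (hb1 i)
  · intro i j hij
    rw [himg, himg, hint, hint]
    exact (Set.disjoint_image_iff (smul_right_injective _ hs.ne')).mpr (hb2 i j hij)

end Pool.Agent.Results.MP_246b47_co.ClonesIntoThree
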