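import Pool.Agent.SmallClones.Final

/-!
# MP_246b47_co: small clones of any convex figure pack into a clone of area 1.85
-/

set_option autoImplicit false

open MeasureTheory

namespace Pool.Agent.Results.MP_246b47_co.SmallClones

/-- For every convex figure `F`, every finite family of clones of `F` of total area at most `1`,
each of area at most `10^(-13)`, packs into a clone of area `37/20 < 2`. The copies used are
translates of the homothets `r i F` and of their point reflections. -/
theorem result :
    ∀ F : Set (EuclideanSpace ℝ (Fin 2)),
      IsCompact F → Convex ℝ F → (interior F).Nonempty →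
      ∀ (n : ℕ) (r : Fin n → ℝ), (∀ i, 0 < r i) →
        (∀ i, r i ^ 2 * (volume F).toReal ≤ 1 / 10 ^ 13) →
        (∑ i, r i ^ 2) * (volume F).toReal ≤ 1 →
        ∃ s : ℝ, 0 < s ∧ s ^ 2 * (volume F).toReal = 37 / 20 ∧
          ∃ (e : Fin n → ℝ) (b : Fin n → EuclideanSpace ℝ (Fin 2)),
            (∀ i, e i = 1 ∨ e i = -1) ∧
            (∀ i, (fun x => (e i * r i) • x + b i) '' F ⊆ (fun x => s • x) '' F) ∧
            (∀ i j, i ≠ j →
              Disjoint (interior ((fun x => (e i * r i) • x + b i) '' F))
                       (interior ((fun x => (e j * r j) • x + b j) '' F))) :=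
  fun F hc hF hi n r hr hs ht =>
    Pool.Agent.SmallClones.small_clones F hc hF hi n r hr hs ht

end Pool.Agent.Results.MP_246b47_co.SmallClones
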